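import Pool.Agent.TD.V.Zorn
import Pool.Agent.TD.E.Split
import Pool.Agent.TD.E.Fib
import Pool.Agent.TD.T.All

/-!
# Block V: vanishing near circles and discs of the fibre of `M(A[X]) → M(A)`
-/

open scoped ContDiff Topology
open Polynomial

namespace Pool.Agent.TD

section
variable {H : Type} [NormedField H] [IsUltrametricDist H] [CompleteSpace H]

/-- A disc. -/
theorem treePart_disc (e : Ber H H[X]) : TreePart (Set.Iic e) where
  closed := Ber.isClosed_Iic e
  compact_Iic := Ber.isCompact_Iic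
  isOpen_Iio := stmtTree.isOpen H
  chain := by
    intro S hS hc hne
    obtain ⟨m, hm, -⟩ := Ber.exists_isGLB hc hne
    obtain ⟨w, hw⟩ := hne
    exact ⟨m, (hm.1 hw).trans (hS hw), hm⟩
  down := by
    intro e' he' z _ hz w hw
    exact (le_trans hw hz.le).trans he'
  star := by
    intro e' he' W hW
    obtain ⟨S, h1, h2, h3⟩ := stmtTree.star H e' (Set.Iic e') (Ber.isClosed_Iic e')
      (le_refl _) (le_refl e') (fun z hz _ w hw => (show w ≤ z from hw).trans hz)
      (fun z _ w _ hwe => hwe) W hW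
    refine ⟨S, fun s hs => ⟨(h1 s hs).1, (h1 s hs).1.le.trans he'⟩, h2, ?_⟩
    refine Set.Subset.trans ?_ h3
    rintro w ⟨⟨hw, -⟩, hw'⟩
    exact ⟨hw, hw'⟩
  top := ⟨e, le_refl e, le_refl _⟩

/-- A circle. -/
theorem treePart_circle {r : ℝ} (hne : ∃ w : Ber H H[X], w.v X = r) :
    TreePart {w : Ber H H[X] | w.v X = r} := by
  obtain ⟨w0, hw0⟩ := hne
  obtain ⟨η, hη, -⟩ := stmtTree.inf H w0 r hw0.le
  have hcl : IsClosed {w : Ber H H[X] | w.v X = r} :=
    isClosed_eq (Ber.continuous_v X) continuous_const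
  -- points of the circle below a point of the circle different from the top
  have hdown : ∀ z : Ber H H[X], z.v X = r → z ≠ η → ∀ w, w ≤ z → w.v X = r := by
    intro z hz hzη w hw
    exact stmtTree.circle H r η z w hη hz hzη hw
  have hlt : ∀ z e : Ber H H[X], e.v X = r → z < e → z ≠ η := by
    rintro z e he hze rfl
    exact absurd (hη.le e he.le) (not_le_of_gt hze)
  refine ⟨hcl, Ber.isCompact_Iic, stmtTree.isOpen H, ?_, ?_, ?_, ?_⟩
  · intro S hS hc hne
    obtain ⟨m, hm, hmv⟩ := Ber.exists_isGLB hc hne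
    refine ⟨m, ?_, hm⟩
    have h1 := hmv (X : H[X])
    have h2 : (fun z : Ber H H[X] => z.v X) '' S = {r} := by
      ext t
      constructor
      · rintro ⟨z, hz, rfl⟩
        exact hS hz
      · rintro rfl
        obtain ⟨z, hz⟩ := hne
        exact ⟨z, hz, hS hz⟩
    rw [h2] at h1
    exact h1.unique isGLB_singleton
  · intro e he z hz hze w hw
    exact hdown z hz (hlt z e he hze) w hw
  · intro e he W hW
    obtain ⟨S, h1, h2, h3⟩ := stmtTree.star H e (Set.Iic e ∩ {w : Ber H H[X] | w.v X = r})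
      ((Ber.isClosed_Iic e).inter hcl) Set.inter_subset_left ⟨le_refl e, he⟩
      (by
        intro z hz hze w hw
        have hz' : z < e := lt_of_le_of_ne hz.1 hze
        exact ⟨(show w ≤ z from hw).trans hz.1, hdown z hz.2 (hlt z e he hz') w hw⟩)
      (by
        intro z hz w hzw hwe
        refine ⟨hwe, le_antisymm ?_ ?_⟩
        · exact (hwe X).trans (le_of_eq he)
        · exact (le_of_eq (show z.v X = r from hz.2).symm).trans (hzw X)) W hW
    exact ⟨S, fun s hs => ⟨(h1 s hs).1, (h1 s hs).2.2⟩, h2, h3⟩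
  · exact ⟨η, hη.val, fun z hz => hη.le z (le_of_eq hz)⟩

end

section
variable {K A H : Type} [NormedField K] [CommRing A] [Algebra K A] [NormedField H]
  [IsUltrametricDist H] [CompleteSpace H] {y : Ber K A} {ι : A →+* H}

omit [IsUltrametricDist H] [CompleteSpace H] in
theorem vinst_lc (hι : IsRes y ι) {p : ℕ} {s : SecT hι p} {w : Ber H H[X]} (h : LC hι s w)
    (D : Set (Ber H H[X])) : VLC (berLS K A[X]) (jj hι) s D w := by
  obtain ⟨θ, hθ, -, h⟩ := h
  exact ⟨θ, hθ, h.mono fun w' hw' _ => hw' (Set.mem_univ w')⟩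

theorem split_jj (hι : IsRes y ι) (p : ℕ) (e : Ber H H[X]) :
    Split (berLS K A[X]) (jj hι) p e := by
  intro l hl
  obtain ⟨s1, s2, h1, h2, h3⟩ := exists_split stmtClp hι e hl
  exact ⟨s1, s2, fun w hw => vinst_lc hι (h1 w hw) _, fun w hw => vinst_lc hι (h2 w hw) _, h3⟩

/-- (V) vanishing near a piece of the fibre over `y`. -/
theorem vanish_fib [LocallyCompactSpace (Ber K A[X])] (hC : (berLS K A[X]).CutOff)
    (hst : ∀ z, (berLS K A[X]).StarAt z) (hι : IsRes y ι) {C : Set (Ber H H[X])}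
    (hT : TreePart C) {p q : ℕ} (c : (berLS K A[X]).G p (q + 1))
    (hc : ∀ w ∈ C, (berLS K A[X]).ddS p (q + 1) (jj hι w) (c.1 (jj hι w)) = 0) :
    ∃ e : (berLS K A[X]).G p q, ∀ w ∈ C,
      c.1 (jj hι w) = (berLS K A[X]).ddS p q (jj hι w) (e.1 (jj hι w)) := by
  obtain ⟨e, he⟩ := exactOn_tree hC (isClosedEmbedding_jj stmtRes hι).isEmbedding hT
    (fun w _ => hst _) (fun w _ => split_jj hι p w) c hc
  exact ⟨e, fun w hw => (he w hw).symm⟩

end

section
variable {K A : Type} [NormedField K] [CommRing A] [Algebra K A]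

/-- (V) vanishing near the fibre of the circle bundle over `y`. -/
theorem vanish_circle [LocallyCompactSpace (Ber K A[X])] (hC : (berLS K A[X]).CutOff)
    (hst : ∀ z, (berLS K A[X]).StarAt z) (y : Ber K A) (r : ℝ) {p q : ℕ}
    (c : (berLS K A[X]).G p (q + 1))
    (hc : ∀ z : Ber K A[X], (∀ a, z.v (C a) = y.v a) → z.v X = r →
      (berLS K A[X]).ddS p (q + 1) z (c.1 z) = 0) :
    ∃ e : (berLS K A[X]).G p q, ∀ z : Ber K A[X], (∀ a, z.v (C a) = y.v a) → z.v X = r →
      c.1 z = (berLS K A[X]).ddS p q z (e.1 z) := by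
  obtain ⟨H, _, _, _, ι, hι⟩ := stmtRes K A y
  have hX : ∀ w : Ber H H[X], (jj hι w).v X = w.v X := fun w => by
    rw [jj_v, Polynomial.map_X]
  by_cases hne : ∃ w : Ber H H[X], w.v X = r
  · obtain ⟨e, he⟩ := vanish_fib hC hst hι (treePart_circle hne) c (by
      intro w hw
      exact hc _ (jj_C hι w) ((hX w).trans hw))
    refine ⟨e, fun z hz hzr => ?_⟩
    have h1 : z ∈ Set.range (jj hι) := by
      rw [range_jj stmtRes hι]
      exact hz
    obtain ⟨w, rfl⟩ := h1
    exact he w ((hX w).symm.trans hzr)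
  · refine ⟨0, fun z hz hzr => ?_⟩
    exfalso
    have h1 : z ∈ Set.range (jj hι) := by
      rw [range_jj stmtRes hι]
      exact hz
    obtain ⟨w, rfl⟩ := h1
    exact hne ⟨w, (hX w).symm.trans hzr⟩

end

end Pool.Agent.TD
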