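import Pool.Agent.TD.A3

/-!
# Block V: vanishing near compact pieces of a fibre (MP_90358a_ag), definitions

`T` is a partially ordered space embedded in `X` by `j` (the fibre `M(H[X])` of the line over a
point), `C` a closed piece of `T` (a circle `{|X| = r}`, a disc).
-/

open scoped ContDiff Topology

namespace Pool.Agent.TD

section
variable {X Φ T : Type} [TopologicalSpace X] [TopologicalSpace T] [PartialOrder T]

/-- Near `w` the restriction to `D` of the family `s` of `(p,0)`-germs is given by one form with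
constant coefficients. -/
def VLC (L : LogSpace X Φ) (j : T → X) {p : ℕ} (s : ∀ w, L.Stalk p 0 (j w)) (D : Set T)
    (w : T) : Prop :=
  ∃ θ : Raw Φ p 0, IsCst θ ∧ ∀ᶠ w' in 𝓝 w, w' ∈ D → ∃ h : L.SFat (j w') θ, s w' = L.germ θ h

/-- (S) closed `(p,0)`-germs at `j e` are sums of a section over the complement of the open disc
below `e` and a section over the disc `{w ≤ e}`. -/
def Split (L : LogSpace X Φ) (j : T → X) (p : ℕ) (e : T) : Prop :=
  ∀ l ∈ L.Lp p (j e), ∃ s1 s2 : ∀ w, L.Stalk p 0 (j w),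
    (∀ w, ¬ w < e → VLC L j s1 {w | ¬ w < e} w) ∧ (∀ w, w ≤ e → VLC L j s2 (Set.Iic e) w) ∧
    s1 e + s2 e = l

/-- A closed piece `C` of the ordered space `T`, with largest element. -/
structure TreePart {T : Type} [TopologicalSpace T] [PartialOrder T] (C : Set T) : Prop where
  closed : IsClosed C
  compact_Iic : ∀ e : T, IsCompact (Set.Iic e)
  isOpen_Iio : ∀ e : T, IsOpen (Set.Iio e)
  chain : ∀ S ⊆ C, IsChain (· ≤ ·) S → S.Nonempty → ∃ m ∈ C, IsGLB S m
  down : ∀ e ∈ C, ∀ z ∈ C, z < e → Set.Iic z ⊆ C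
  star : ∀ e ∈ C, ∀ W ∈ 𝓝 e, ∃ S : Finset T, (∀ s ∈ S, s < e ∧ s ∈ C) ∧
    (∀ s ∈ S, ∀ t ∈ S, s ≠ t → Disjoint (Set.Iic s) (Set.Iic t)) ∧
    (Set.Iic e ∩ C) \ (⋃ s ∈ S, Set.Iio s) ⊆ W
  top : ∃ η ∈ C, C ⊆ Set.Iic η

/-- `c` is exact at the points `j w`, `w ∈ Z`. -/
def ExactOn (L : LogSpace X Φ) (j : T → X) {p q : ℕ} (c : L.G p (q + 1)) (Z : Set T) : Prop :=
  ∃ e : L.G p q, ∀ w ∈ Z, (L.ddG p q e).1 (j w) = c.1 (j w)

end

end Pool.Agent.TD
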