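import Pool.Agent.TD.V.Defs

/-!
# Block V: extension of sections over the fibre to global sections
-/

open scoped ContDiff Topology

namespace Pool.Agent.TD

section
variable {X Φ T : Type} [TopologicalSpace X] [TopologicalSpace T] [PartialOrder T]
  [LocallyCompactSpace X] [T2Space X] {L : LogSpace X Φ} {j : T → X} {p q : ℕ}

omit [LocallyCompactSpace X] [T2Space X] [PartialOrder T] in
theorem VLC.mono {s : ∀ w, L.Stalk p 0 (j w)} {D D' : Set T} {w : T} (h : VLC L j s D w)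
    (hD : D' ⊆ D) : VLC L j s D' w := by
  obtain ⟨θ, hθ, h⟩ := h
  exact ⟨θ, hθ, h.mono fun w' hw' hd => hw' (hD hd)⟩

omit [LocallyCompactSpace X] [T2Space X] [PartialOrder T] in
theorem VLC.closed {s : ∀ w, L.Stalk p 0 (j w)} {D : Set T} {w : T} (h : VLC L j s D w)
    (hw : w ∈ D) : L.ddS p 0 (j w) (s w) = 0 := by
  obtain ⟨θ, hθ, h⟩ := h
  obtain ⟨h1, e1⟩ := h.self_of_nhds hw
  rw [e1]
  exact L.Lp_closed (L.germ_cst_mem hθ h1)

omit [LocallyCompactSpace X] [T2Space X] in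
/-- (S) is trivial at minimal points. -/
theorem split_of_min {e : T} (he : Set.Iic e = {e}) : Split L j p e := by
  classical
  intro l hl
  have hle : ∀ w : T, w ≤ e → w = e := fun w hw => by
    have h1 : w ∈ Set.Iic e := hw
    rw [he] at h1
    exact h1
  refine ⟨fun _ => 0, fun w => if h : w = e then (h.symm ▸ l : L.Stalk p 0 (j w)) else 0,
    ?_, ?_, ?_⟩
  · intro w _
    exact ⟨0, isCst_zero, Filter.Eventually.of_forall fun w' _ =>
      ⟨LogSpace.SFat.zero L, L.germ_zero.symm⟩⟩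
  · intro w hw
    obtain ⟨θ, hθ, h, e1⟩ := L.exists_cst hl
    refine ⟨θ, hθ, Filter.Eventually.of_forall fun w' hw' => ?_⟩
    have hw'' : w' = e := hle w' hw'
    subst hw''
    refine ⟨h, ?_⟩
    show (if h : w' = w' then (h.symm ▸ l : L.Stalk p 0 (j w')) else 0) = _
    rw [dif_pos rfl]
    exact e1
  · show (0 : L.Stalk p 0 (j e)) + (if h : e = e then (h.symm ▸ l : L.Stalk p 0 (j e)) else 0) = l
    rw [dif_pos rfl, zero_add]

/-- A family which is locally constant on a compact set `Z` extends to a global section, closed at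
the points of `j '' Z`. -/
theorem vlc_extend (hC : L.CutOff) (hj : Topology.IsEmbedding j) {Z : Set T} (hZ : IsCompact Z)
    {s : ∀ w, L.Stalk p 0 (j w)} (hs : ∀ w ∈ Z, VLC L j s Z w) :
    ∃ b : L.G p 0, (∀ w ∈ Z, b.1 (j w) = s w) ∧ ∀ w ∈ Z, (L.ddG p 0 b).1 (j w) = 0 := by
  classical
  let S : ∀ z, L.Stalk p 0 z := fun z =>
    if h : ∃ w, j w = z then (h.choose_spec ▸ s h.choose : L.Stalk p 0 z) else 0
  have key : ∀ (w w' : T) (e : j w' = j w), (e ▸ s w' : L.Stalk p 0 (j w)) = s w := by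
    intro w w' e
    have h1 : w' = w := hj.injective e
    subst h1
    rfl
  have hS : ∀ w, S (j w) = s w := by
    intro w
    have h : ∃ w', j w' = j w := ⟨w, rfl⟩
    show (if h : ∃ w', j w' = j w then (h.choose_spec ▸ s h.choose : L.Stalk p 0 (j w)) else 0) = s w
    rw [dif_pos h]
    exact key _ _ _
  obtain ⟨b, hb⟩ := L.extend hC (hZ.image hj.continuous) S (by
    rintro z ⟨w, hw, rfl⟩
    obtain ⟨θ, hθ, h⟩ := hs w hw
    refine ⟨θ, ?_⟩
    rw [hj.toIsInducing.nhds_eq_comap, Filter.eventually_comap] at h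
    filter_upwards [h] with z' hz' hzZ
    obtain ⟨w', hw', rfl⟩ := hzZ
    obtain ⟨h1, e1⟩ := hz' w' rfl hw'
    exact ⟨h1, (hS w').trans e1⟩)
  have hb' : ∀ w ∈ Z, b.1 (j w) = s w := fun w hw =>
    (hb (j w) (Set.mem_image_of_mem j hw)).trans (hS w)
  refine ⟨b, hb', fun w hw => ?_⟩
  rw [LogSpace.ddG_val, hb' w hw]
  exact (hs w hw).closed hw

omit [LocallyCompactSpace X] [T2Space X] [PartialOrder T] in
/-- Exactness is an open condition. -/
theorem ExactOn.nhds {c : L.G p (q + 1)} (hj : Continuous j) {Z : Set T} (h : ExactOn L j c Z) :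
    ∃ U : Set T, IsOpen U ∧ Z ⊆ U ∧ ExactOn L j c U := by
  obtain ⟨e, he⟩ := h
  refine ⟨j ⁻¹' (L.supp (L.ddG p q e - c))ᶜ, (L.isClosed_supp _).isOpen_compl.preimage hj, ?_,
    e, ?_⟩
  · intro w hw hsupp
    apply hsupp
    show (L.ddG p q e).1 (j w) - c.1 (j w) = 0
    rw [he w hw, sub_self]
  · intro w hw
    by_contra hne
    apply hw
    show (L.ddG p q e).1 (j w) - c.1 (j w) ≠ 0
    exact sub_ne_zero.2 hne

/-- Poincaré: a section which is closed at `j w` is exact near `w`. -/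
theorem exactOn_point (hC : L.CutOff) {c : L.G p (q + 1)} (hj : Continuous j) {w : T}
    (hs : L.StarAt (j w)) (hc : (L.ddG p (q + 1) c).1 (j w) = 0) :
    ∃ U : Set T, IsOpen U ∧ w ∈ U ∧ ExactOn L j c U := by
  obtain ⟨e0, he0⟩ := L.poincare hs (c.1 (j w)) hc
  obtain ⟨θ, h, rfl⟩ := L.exists_germ e0
  obtain ⟨b, hb⟩ := L.extend_germ hC h
  obtain ⟨h', e1⟩ := hb.self_of_nhds
  have hex : ExactOn L j c {w} := by
    refine ⟨b, fun w' hw' => ?_⟩
    have hw'' : w' = w := hw'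
    subst hw''
    rw [LogSpace.ddG_val, e1]
    exact he0
  obtain ⟨U, hU, hwU, hU'⟩ := hex.nhds hj
  exact ⟨U, hU, hwU rfl, hU'⟩

end

end Pool.Agent.TD
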