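import Pool.Agent.TD.V.Ext

/-!
# Block V: gluing of primitives at one point
-/

open scoped ContDiff Topology

namespace Pool.Agent.TD

section
variable {X Φ T : Type} [TopologicalSpace X] [TopologicalSpace T] [PartialOrder T]
  [LocallyCompactSpace X] [T2Space X] {L : LogSpace X Φ} {j : T → X} {p q : ℕ}

omit [PartialOrder T] in
/-- Two primitives which agree on the intersection are glued. -/
theorem vglue_aux (hC : L.CutOff) (hj : Topology.IsEmbedding j) {Z1 Z2 : Set T}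
    (h1 : IsCompact Z1) (h2 : IsCompact Z2) {c : L.G p (q + 1)} (a1 a2 : L.G p q)
    (e1 : ∀ w ∈ Z1, (L.ddG p q a1).1 (j w) = c.1 (j w))
    (e2 : ∀ w ∈ Z2, (L.ddG p q a2).1 (j w) = c.1 (j w))
    (h : ∀ w ∈ Z1 ∩ Z2, a1.1 (j w) = a2.1 (j w)) :
    ExactOn L j c (Z1 ∪ Z2) := by
  obtain ⟨a, ha1, ha2⟩ := L.glue hC (h1.image hj.continuous) (h2.image hj.continuous) a1 a2 (by
    rintro z ⟨⟨w, hw, rfl⟩, ⟨w', hw', hww⟩⟩
    have : w' = w := hj.injective hww
    subst this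
    exact h w' ⟨hw, hw'⟩)
  refine ⟨a, ?_⟩
  rintro w (hw | hw)
  · rw [← e1 w hw]
    show L.ddS p q (j w) (a.1 (j w)) = L.ddS p q (j w) (a1.1 (j w))
    rw [ha1 _ ⟨w, hw, rfl⟩]
  · rw [← e2 w hw]
    show L.ddS p q (j w) (a.1 (j w)) = L.ddS p q (j w) (a2.1 (j w))
    rw [ha2 _ ⟨w, hw, rfl⟩]

/-- Primitives over `Z1` and over the disc `Z2` below `e` are glued at the single point `e`. -/
theorem exactOn_union (hC : L.CutOff) (hj : Topology.IsEmbedding j) {e : T} (hs : L.StarAt (j e))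
    (hS : Split L j p e) {Z1 Z2 : Set T} (h1 : IsCompact Z1) (h2 : IsCompact Z2)
    (hZ1 : ∀ w ∈ Z1, ¬ w < e) (hZ2 : Z2 ⊆ Set.Iic e) (he : Z1 ∩ Z2 ⊆ {e})
    {c : L.G p (q + 1)} (e1 : ExactOn L j c Z1) (e2 : ExactOn L j c Z2) :
    ExactOn L j c (Z1 ∪ Z2) := by
  obtain ⟨a1, e1⟩ := e1
  obtain ⟨a2, e2⟩ := e2
  by_cases hee : e ∈ Z1 ∧ e ∈ Z2
  swap
  · refine vglue_aux hC hj h1 h2 a1 a2 e1 e2 fun w hw => ?_
    have hwe : w = e := he hw
    subst hwe
    exact absurd hw hee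
  · have hl : L.ddS p q (j e) (a1.1 (j e) - a2.1 (j e)) = 0 := by
      rw [map_sub]
      have k1 : L.ddS p q (j e) (a1.1 (j e)) = c.1 (j e) := e1 e hee.1
      have k2 : L.ddS p q (j e) (a2.1 (j e)) = c.1 (j e) := e2 e hee.2
      rw [k1, k2, sub_self]
    cases q with
    | zero =>
      obtain ⟨s1, s2, hs1, hs2, hs3⟩ := hS _ (L.poincare0 hs _ hl)
      obtain ⟨b1, hb1, hb1'⟩ := vlc_extend hC hj h1 (s := s1) fun w hw =>
        (hs1 w (hZ1 w hw)).mono fun w' hw' => hZ1 w' hw'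
      obtain ⟨b2, hb2, hb2'⟩ := vlc_extend hC hj h2 (s := s2) fun w hw =>
        (hs2 w (hZ2 hw)).mono hZ2
      refine vglue_aux hC hj h1 h2 (a1 - b1) (a2 + b2) ?_ ?_ ?_
      · intro w hw
        rw [map_sub]
        show (L.ddG p 0 a1).1 (j w) - (L.ddG p 0 b1).1 (j w) = _
        rw [hb1' w hw, sub_zero, e1 w hw]
      · intro w hw
        rw [map_add]
        show (L.ddG p 0 a2).1 (j w) + (L.ddG p 0 b2).1 (j w) = _
        rw [hb2' w hw, add_zero, e2 w hw]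
      · intro w hw
        have hwe : w = e := he hw
        subst hwe
        show a1.1 (j w) - b1.1 (j w) = a2.1 (j w) + b2.1 (j w)
        rw [hb1 w hee.1, hb2 w hee.2, sub_eq_iff_eq_add, add_assoc, add_comm (s2 w) (s1 w), hs3,
          add_sub_cancel]
    | succ q' =>
      obtain ⟨g, hg⟩ := L.poincare hs _ hl
      obtain ⟨θ, hθ, rfl⟩ := L.exists_germ g
      obtain ⟨b, hb⟩ := L.extend_germ hC hθ
      obtain ⟨hθ', hb⟩ := hb.self_of_nhds
      refine vglue_aux hC hj h1 h2 a1 (a2 + L.ddG p q' b) e1 ?_ ?_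
      · intro w hw
        rw [map_add, L.ddG_ddG, add_zero, e2 w hw]
      · intro w hw
        have hwe : w = e := he hw
        subst hwe
        show a1.1 (j w) = a2.1 (j w) + L.ddS p q' (j w) (b.1 (j w))
        rw [hb, hg, add_sub_cancel]

end

end Pool.Agent.TD
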