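import Pool.Agent.TD.V.Glue

/-!
# Block V: vanishing near a piece of the tree
-/

open scoped ContDiff Topology

namespace Pool.Agent.TD

section
variable {X Φ T : Type} [TopologicalSpace X] [TopologicalSpace T] [PartialOrder T]
  [LocallyCompactSpace X] [T2Space X] {L : LogSpace X Φ} {j : T → X} {p q : ℕ}

omit [TopologicalSpace T] [PartialOrder T] [LocallyCompactSpace X] [T2Space X] in
theorem vzorn_mono {c : L.G p (q + 1)} {Z Z' : Set T} (h : ExactOn L j c Z') (hZ : Z ⊆ Z') :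
    ExactOn L j c Z := by
  obtain ⟨e, he⟩ := h
  exact ⟨e, fun w hw => he w (hZ hw)⟩

/-- One step: exactness near the discs below `e` gives exactness near the piece of the disc of
`e`. -/
theorem exactOn_step (hC : L.CutOff) (hj : Topology.IsEmbedding j) {C : Set T}
    (hT : TreePart C) (hst : ∀ w ∈ C, L.StarAt (j w)) (hS : ∀ w ∈ C, Split L j p w)
    {c : L.G p (q + 1)} {e : T} (he : e ∈ C) (hc : (L.ddG p (q + 1) c).1 (j e) = 0)
    (h : ∀ w ∈ C, w < e → ExactOn L j c (Set.Iic w ∩ C)) :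
    ExactOn L j c (Set.Iic e ∩ C) := by
  obtain ⟨U, hU, heU, hEU⟩ := exactOn_point hC hj.continuous (hst e he) hc
  obtain ⟨S, hS1, hSd, hSU⟩ := hT.star e he U (hU.mem_nhds heU)
  set V0 : Set T := (Set.Iic e ∩ C) \ (⋃ s ∈ S, Set.Iio s) with hV0
  have hV0c : IsCompact V0 := by
    refine IsCompact.diff ((hT.compact_Iic e).inter_right hT.closed) ?_
    exact isOpen_biUnion fun s _ => hT.isOpen_Iio s
  have hV0E : ExactOn L j c V0 := vzorn_mono hEU hSU
  have key : ∀ R : Finset T, R ⊆ S → ExactOn L j c (V0 ∪ ⋃ s ∈ R, Set.Iic s) := by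
    classical
    intro R
    induction R using Finset.induction_on with
    | empty =>
      intro _
      simpa using hV0E
    | insert a R ha ih =>
      intro hR
      have haS : a ∈ S := hR (Finset.mem_insert_self a R)
      have hRS : R ⊆ S := fun x hx => hR (Finset.mem_insert_of_mem hx)
      obtain ⟨hae, haC⟩ := hS1 a haS
      have hZ1 : ∀ w ∈ V0 ∪ ⋃ s ∈ R, Set.Iic s, ¬ w < a := by
        rintro w (hw | hw) hwa
        · exact hw.2 (Set.mem_biUnion haS hwa)
        · obtain ⟨t, ht, hwt⟩ := Set.mem_iUnion₂.1 hw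
          have hne : t ≠ a := by
            rintro rfl
            exact ha ht
          exact Set.disjoint_left.1 (hSd t (hRS ht) a haS hne) hwt hwa.le
      have hsub : Set.Iic a ⊆ C := hT.down e he a haC hae
      have e2 : ExactOn L j c (Set.Iic a) :=
        vzorn_mono (h a haC hae) fun w hw => ⟨hw, hsub hw⟩
      have hu := exactOn_union hC hj (hst a haC) (hS a haC)
        (hV0c.union (R.isCompact_biUnion fun s _ => hT.compact_Iic s)) (hT.compact_Iic a) hZ1
        (Set.Subset.refl _) (fun w hw => by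
          by_contra hne
          exact hZ1 w hw.1 (lt_of_le_of_ne hw.2 hne)) (ih hRS) e2
      refine vzorn_mono hu ?_
      rintro w (hw | hw)
      · exact Or.inl (Or.inl hw)
      · obtain ⟨t, ht, hwt⟩ := Set.mem_iUnion₂.1 hw
        rcases Finset.mem_insert.1 ht with rfl | ht
        · exact Or.inr hwt
        · exact Or.inl (Or.inr (Set.mem_biUnion ht hwt))
  refine vzorn_mono (key S (Finset.Subset.refl S)) ?_
  intro w hw
  by_cases hw' : w ∈ ⋃ s ∈ S, Set.Iio s
  · obtain ⟨t, ht, hwt⟩ := Set.mem_iUnion₂.1 hw'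
    exact Or.inr (Set.mem_biUnion ht (le_of_lt hwt))
  · exact Or.inl ⟨hw, hw'⟩

omit [TopologicalSpace T] in
theorem vzorn_exists_minimal (B : Set T) (hB : B.Nonempty)
    (h : ∀ S ⊆ B, IsChain (· ≤ ·) S → S.Nonempty → ∃ m ∈ B, ∀ z ∈ S, m ≤ z) :
    ∃ m ∈ B, ∀ z ∈ B, z ≤ m → z = m := by
  obtain ⟨x, hx⟩ := hB
  have hz := zorn_le_nonempty₀ (α := Tᵒᵈ) (OrderDual.ofDual ⁻¹' B) (by
    intro c hc hch y hy
    obtain ⟨m, hm, hmz⟩ := h (OrderDual.toDual ⁻¹' c) (fun z hz => hc hz) (by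
      intro a ha b hb hab
      have := hch ha hb (fun e => hab (OrderDual.toDual.injective e))
      exact this.symm) ⟨OrderDual.ofDual y, hy⟩
    exact ⟨OrderDual.toDual m, hm, fun z hz => hmz _ hz⟩) (OrderDual.toDual x) hx
  obtain ⟨m, -, hm⟩ := hz
  refine ⟨OrderDual.ofDual m, hm.prop, fun z hz hzm => ?_⟩
  have h1 : m ≤ OrderDual.toDual z := hzm
  have h2 : OrderDual.toDual z ≤ m := hm.le_of_ge hz h1
  exact le_antisymm hzm h2

/-- (V) abstract form. -/
theorem exactOn_tree (hC : L.CutOff) (hj : Topology.IsEmbedding j) {C : Set T}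
    (hT : TreePart C) (hst : ∀ w ∈ C, L.StarAt (j w)) (hS : ∀ w ∈ C, Split L j p w)
    (c : L.G p (q + 1)) (hc : ∀ w ∈ C, (L.ddG p (q + 1) c).1 (j w) = 0) :
    ExactOn L j c C := by
  have : T2Space T := hj.t2Space
  obtain ⟨η, hη, hCη⟩ := hT.top
  suffices hall : ∀ e ∈ C, ExactOn L j c (Set.Iic e ∩ C) from
    vzorn_mono (hall η hη) fun w hw => ⟨hCη hw, hw⟩
  by_contra hcon
  push Not at hcon
  obtain ⟨b, hbC, hb⟩ := hcon
  obtain ⟨m, ⟨hmC, hm⟩, hmin⟩ := vzorn_exists_minimal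
    {e | e ∈ C ∧ ¬ ExactOn L j c (Set.Iic e ∩ C)} ⟨b, hbC, hb⟩ (by
      intro S hSB hch hne
      obtain ⟨m, hmC, hglb⟩ := hT.chain S (fun x hx => (hSB hx).1) hch hne
      refine ⟨m, ⟨hmC, fun hE => ?_⟩, fun z hz => hglb.1 hz⟩
      obtain ⟨U, hU, hsub, hEU⟩ := hE.nhds hj.continuous
      have : Nonempty S := hne.to_subtype
      obtain ⟨i, hi⟩ := exists_subset_nhds_of_isCompact' (V := fun i : S => Set.Iic i.1 ∩ C)
        (U := U) (by
          intro a b
          rcases hch.total a.2 b.2 with h1 | h1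
          · exact ⟨a, Set.Subset.refl _, fun w hw => ⟨le_trans hw.1 h1, hw.2⟩⟩
          · exact ⟨b, fun w hw => ⟨le_trans hw.1 h1, hw.2⟩, Set.Subset.refl _⟩)
        (fun i => (hT.compact_Iic i.1).inter_right hT.closed)
        (fun i => (hT.compact_Iic i.1).isClosed.inter hT.closed)
        (fun w hw => hU.mem_nhds (hsub ⟨hglb.2 fun z hz =>
          (Set.mem_iInter.1 hw ⟨z, hz⟩).1, by
            obtain ⟨z, hz⟩ := hne
            exact (Set.mem_iInter.1 hw ⟨z, hz⟩).2⟩))
      exact (hSB i.2).2 (vzorn_mono hEU hi))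
  refine hm (exactOn_step hC hj hT hst hS hmC (hc m hmC) fun w hw hwm => ?_)
  by_contra hE
  exact hwm.ne (hmin w ⟨hw, hE⟩ hwm.le)

end

end Pool.Agent.TD
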